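import Pool.Agent.helper62.DP8.Spec

/-!
# Project sq8 (MP_e3efbc_co): module SKK
-/

set_option autoImplicit false

namespace Pool.Agent.helper62.DP8

theorem SKK (hBIT : BIT_stmt) (hORS : ORS_stmt) (hTAB : TAB_stmt) (hWTB : WTB_stmt) (hTRR : TRR_stmt) : SKK_stmt := by
  intro V G g s v hR x y hxy
  obtain ⟨hR1, hR2⟩ := hTRR V G g s v hR
  obtain ⟨-, -, -, -, -, hK, -⟩ := hWTB.2.1 g s
  rw [hK, hTAB.2.2.1] at hxy
  obtain ⟨hxn, -, hd⟩ := hxy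
  rw [hBIT.2.2.2.1, hBIT.2.1, hBIT.2.2.2.2.1] at hd
  simp only [Bool.and_eq_true, Bool.or_eq_true, Bool.not_eq_true', decide_eq_false_iff_not] at hd
  obtain ⟨hd1, hne⟩ := hd
  rcases hd1 with h | h
  · obtain ⟨h1, h2, h3, h4, -⟩ := hR2 x y h
    refine ⟨h1, h2, h3, ?_, Or.inl h4⟩
    intro hv
    exact h3 (hR.inj x h1 y h2 hv)
  · rw [hORS.1] at h
    obtain ⟨w, hw, hxw, hwy⟩ := h
    obtain ⟨h1, h2, h3, h4, -⟩ := hR2 x w hxw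
    obtain ⟨k1, k2, k3, k4, -⟩ := hR2 w y hwy
    have hxy' : x ≠ y := fun e => hne e.symm
    refine ⟨h1, k2, hxy', ?_, Or.inr ⟨v w, h4, k4⟩⟩
    intro hv
    exact hxy' (hR.inj x h1 y k2 hv)

end Pool.Agent.helper62.DP8
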